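import Pool.Agent.H95.FG.Defs

/-!
# Part CASE1 of crew FG: two different zeros in a zero free plane
-/

open MvPolynomial

namespace H15.FG

open H95.FG

/-- the bivariate polynomial `A(t z0 + z1 + σ u, Y)` -/
noncomputable def biv {n : ℕ} (A : MvPolynomial (Fin n ⊕ Fin n) ℂ) (z0 z1 u Y : Fin n → ℂ) :
    Polynomial (Polynomial ℂ) :=
  MvPolynomial.aeval (Sum.elim
    (fun k => Polynomial.X * Polynomial.C (Polynomial.C (z0 k)) +
      Polynomial.C (Polynomial.C (z1 k) + Polynomial.X * Polynomial.C (u k)))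
    (fun k => Polynomial.C (Polynomial.C (Y k)))) A

theorem eval_biv_aux {ι : Type*} (g : ι → Polynomial (Polynomial ℂ)) (A : MvPolynomial ι ℂ)
    (σ t : ℂ) :
    Polynomial.eval t ((MvPolynomial.aeval g A).map (Polynomial.evalRingHom σ)) =
      MvPolynomial.eval (fun i => Polynomial.eval t ((g i).map (Polynomial.evalRingHom σ))) A := by
  induction A using MvPolynomial.induction_on with
  | C a =>
    have : (MvPolynomial.aeval g (MvPolynomial.C a : MvPolynomial ι ℂ)) =
        Polynomial.C (Polynomial.C a) := by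
      simp
    rw [this]
    simp
  | add p q hp hq => simp [hp, hq]
  | mul_X p i hp => simp [hp]

theorem eval_biv {n : ℕ} (A : MvPolynomial (Fin n ⊕ Fin n) ℂ) (z0 z1 u Y : Fin n → ℂ)
    (σ t : ℂ) :
    Polynomial.eval t ((biv A z0 z1 u Y).map (Polynomial.evalRingHom σ)) =
      AA A (t • z0 + (z1 + σ • u)) Y := by
  rw [biv, eval_biv_aux]
  unfold AA
  congr 1
  congr 1
  funext i
  cases i with
  | inl k =>
    simp only [Sum.elim_inl, Polynomial.map_add, Polynomial.map_mul, Polynomial.map_X,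
      Polynomial.map_C, Polynomial.eval_add, Polynomial.eval_mul, Polynomial.eval_X,
      Polynomial.eval_C, Polynomial.coe_evalRingHom, Pi.add_apply, Pi.smul_apply, smul_eq_mul]
  | inr k => simp

theorem root_near {n : ℕ} (A : MvPolynomial (Fin n ⊕ Fin n) ℂ) (z0 z1 u Y : Fin n → ℂ) (t0 : ℂ)
    (h1 : ∃ t : ℂ, AA A (t • z0 + z1) Y ≠ 0) (h0 : AA A (t0 • z0 + z1) Y = 0) :
    ∃ δ > 0, ∀ σ : ℂ, ‖σ‖ < δ → (∃ t : ℂ, AA A (t • z0 + (z1 + σ • u)) Y = 0) ∧
      (∃ t : ℂ, AA A (t • z0 + (z1 + σ • u)) Y ≠ 0) := by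
  set P := biv A z0 z1 u Y with hP
  set P0 := P.map (Polynomial.evalRingHom 0) with hP0
  obtain ⟨t1, ht1⟩ := h1
  have e0 : ∀ t, P0.eval t = AA A (t • z0 + z1) Y := by
    intro t
    rw [hP0, hP, eval_biv]
    simp
  have hne : P0 ≠ 0 := by
    intro h
    apply ht1
    rw [← e0, h, Polynomial.eval_zero]
  have hdeg : P0.natDegree ≠ 0 := by
    intro h
    obtain ⟨c, hc⟩ := Polynomial.natDegree_eq_zero.mp h
    apply ht1
    rw [← e0, ← hc, Polynomial.eval_C]
    have := e0 t0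
    rw [← hc, Polynomial.eval_C, h0] at this
    exact this
  set e := P0.natDegree with he
  have hq : (P.coeff e).eval 0 ≠ 0 := by
    have : P0.coeff e = (P.coeff e).eval 0 := by
      rw [hP0, Polynomial.coeff_map]
      rfl
    rw [← this]
    exact Polynomial.leadingCoeff_ne_zero.mpr hne
  have hev : ∀ᶠ σ in nhds (0 : ℂ), (P.coeff e).eval σ ≠ 0 :=
    (P.coeff e).continuous.continuousAt.eventually_ne hq
  obtain ⟨δ, hδ, hb⟩ := Metric.eventually_nhds_iff.mp hev
  refine ⟨δ, hδ, ?_⟩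
  intro σ hσ
  have h2 : (P.coeff e).eval σ ≠ 0 := hb (by simpa using hσ)
  set Q := P.map (Polynomial.evalRingHom σ) with hQ
  have hc : Q.coeff e ≠ 0 := by
    rw [hQ, Polynomial.coeff_map]
    exact h2
  have hQdeg : Q.degree ≠ 0 := by
    intro h
    have h3 : Q.natDegree = 0 := Polynomial.natDegree_eq_of_degree_eq_some h
    have h4 : e ≤ Q.natDegree := Polynomial.le_natDegree_of_ne_zero hc
    omega
  have eQ : ∀ t, Q.eval t = AA A (t • z0 + (z1 + σ • u)) Y := by
    intro t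
    rw [hQ, hP, eval_biv]
  refine ⟨?_, ?_⟩
  · obtain ⟨t, ht⟩ := IsAlgClosed.exists_root Q hQdeg
    exact ⟨t, by rw [← eQ]; exact ht⟩
  · by_contra hcon
    push Not at hcon
    apply hc
    have : Q = 0 := by
      apply Polynomial.funext
      intro t
      rw [eQ, hcon, Polynomial.eval_zero]
    rw [this, Polynomial.coeff_zero]

theorem t_CASE1 (hOPEN : S_OPEN) (hHOMA : S_HOMA) (hCOL : S_COL) (hSTAR : S_STAR) : S_CASE1 := by
  intro n m d p A hS hH hP3 z0 z1 u Y t0 hLI hz0 hz1 hu hZF hA0 hAt0 hne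
  have hn : 1 ≤ n := by
    rcases Nat.eq_zero_or_pos n with h | h
    · exfalso
      subst h
      exact hLI.ne_zero 0 (Subsingleton.elim _ _)
    · exact h
  have hLI' : ∀ α β γ : ℂ, α • z0 + β • z1 + γ • u = 0 → α = 0 ∧ β = 0 ∧ γ = 0 := by
    intro α β γ h
    have := Fintype.linearIndependent_iff.mp hLI ![α, β, γ] (by
      simpa [Fin.sum_univ_three] using h)
    exact ⟨by simpa using this 0, by simpa using this 1, by simpa using this 2⟩
  have hz0ne : ev p z0 ≠ 0 := by
    have := hZF 1 0 (Or.inl one_ne_zero)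
    simpa using this
  obtain ⟨ε, hε, hO⟩ := hOPEN n m (d + 1) p z0 z1 (by omega) hH hZF
  -- nonvanishing on the affine line
  have hne1 : ∃ t : ℂ, AA A (t • z0 + z1) Y ≠ 0 := by
    obtain ⟨s, t, hst⟩ := hne
    have ht : t ≠ 0 := by
      intro ht
      apply hst
      rw [ht, zero_smul, add_zero, (hHOMA n m d p A hn hS hH s z0 Y).1, hA0, mul_zero]
    refine ⟨s / t, ?_⟩
    intro h
    apply hst
    have : s • z0 + t • z1 = t • ((s / t) • z0 + z1) := by
      rw [smul_add, smul_smul, mul_div_cancel₀ _ ht]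
    rw [this, (hHOMA n m d p A hn hS hH t _ Y).1, h, mul_zero]
  obtain ⟨δ, hδ, hroot⟩ := root_near A z0 z1 u Y t0 hne1 hAt0
  set η := min δ (ε / (‖u‖ + 1)) with hη
  have hηpos : 0 < η := lt_min hδ (by positivity)
  have key : ∀ σ : ℂ, ‖σ‖ < η → ∃ t : ℂ, ∃ c : ℂ, c ≠ 0 ∧
      ev p (t • z0 + (z1 + σ • u)) = c • ev p z0 := by
    intro σ hσ
    obtain ⟨⟨t, ht⟩, ⟨t', ht'⟩⟩ := hroot σ (lt_of_lt_of_le hσ (min_le_left _ _))
    have hσ2 : ‖σ‖ < ε / (‖u‖ + 1) := lt_of_lt_of_le hσ (min_le_right _ _)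
    have hzf : ZF p z0 (z1 + σ • u) := by
      apply hO
      · simpa using hε
      · have : z1 + σ • u - z1 = σ • u := by abel
        rw [this, norm_smul]
        rw [lt_div_iff₀ (by positivity)] at hσ2
        have : ‖σ‖ * ‖u‖ ≤ ‖σ‖ * (‖u‖ + 1) := by
          apply mul_le_mul_of_nonneg_left _ (norm_nonneg _); linarith
        linarith
    have hli2 : LinearIndependent ℂ ![z0, z1 + σ • u] := by
      rw [LinearIndependent.pair_iff]
      intro α β h
      have h' : α • z0 + β • z1 + (β * σ) • u = 0 := by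
        rw [smul_add, smul_smul, ← add_assoc] at h
        exact h
      obtain ⟨h1, h2, _⟩ := hLI' _ _ _ h'
      exact ⟨h1, h2⟩
    have hbY : ∑ k, (z1 + σ • u) k * Y k = 0 := by
      have : ∀ k, (z1 + σ • u) k * Y k = z1 k * Y k + σ * (u k * Y k) := by
        intro k
        simp only [Pi.add_apply, Pi.smul_apply, smul_eq_mul]
        ring
      rw [Finset.sum_congr rfl (fun k _ => this k), Finset.sum_add_distrib, ← Finset.mul_sum,
        hz1, hu]
      ring
    have hcol := (hCOL n m p A hS hP3 z0 (z1 + σ • u) Y hli2 hz0 hbY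
      ⟨t', 1, by rw [one_smul]; exact ht'⟩).1 1 0 t 1 (by simpa using hA0)
      (by rw [one_smul]; exact ht)
    have hxe : (1 : ℂ) • z0 + (0 : ℂ) • (z1 + σ • u) = z0 := by simp
    rw [hxe, one_smul] at hcol
    rw [LinearIndependent.pair_iff' hz0ne] at hcol
    push Not at hcol
    obtain ⟨c, hc⟩ := hcol
    refine ⟨t, c, ?_, hc.symm⟩
    intro hc0
    have := hzf t 1 (Or.inr one_ne_zero)
    rw [one_smul] at this
    apply this
    rw [← hc, hc0, zero_smul]
  choose! tf cf hcf hf using key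
  have hinf : Set.Infinite {σ : ℂ | ‖σ‖ < η} := by
    have : Set.Infinite (Set.Ioo (0 : ℝ) η) := Set.Ioo_infinite hηpos
    refine (this.image (f := fun x : ℝ => (x : ℂ)) ?_).mono ?_
    · intro x _ y _ hxy
      exact Complex.ofReal_injective hxy
    · rintro _ ⟨x, hx, rfl⟩
      simpa [abs_of_pos hx.1] using hx.2
  apply hz0ne
  refine hSTAR n m p A hS z0 (fun σ => tf σ • z0 + (z1 + σ • u)) {σ : ℂ | ‖σ‖ < η} hinf ?_ ?_
  · intro σ _ τ _ hst
    rw [LinearIndependent.pair_iff]
    intro α β h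
    have h' : (α * tf σ + β * tf τ) • z0 + (α + β) • z1 + (α * σ + β * τ) • u = 0 := by
      rw [← h]
      simp only [smul_add, smul_smul, add_smul]
      abel
    obtain ⟨_, h2, h3⟩ := hLI' _ _ _ h'
    have hb : β = -α := by linear_combination h2
    have h4 : α * (σ - τ) = 0 := by rw [hb] at h3; linear_combination h3
    have ha : α = 0 := by
      rcases mul_eq_zero.mp h4 with h | h
      · exact h
      · exact absurd (sub_eq_zero.mp h) hst
    exact ⟨ha, by rw [hb, ha, neg_zero]⟩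
  · intro σ hσ
    exact ⟨cf σ, hcf σ hσ, hf σ hσ⟩

end H15.FG
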