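import Pool.Agent.H95.FG.Defs

/-!
# Part NV of crew FG: a zero free plane on which `A(·, Y)` does not vanish identically
-/

open MvPolynomial

namespace H15.FG

open H95.FG

theorem eval_aeval_curve {σ : Type*} (g : σ → Polynomial ℂ) (A : MvPolynomial σ ℂ) (τ : ℂ) :
    Polynomial.eval τ (MvPolynomial.aeval g A) =
      MvPolynomial.eval (fun i => Polynomial.eval τ (g i)) A := by
  induction A using MvPolynomial.induction_on with
  | C a => simp
  | add p q hp hq => simp [hp, hq]
  | mul_X p i hp => simp [hp]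

/-- a polynomial curve on which `A` vanishes near `0` -/
theorem curve_zero {n : ℕ} (A : MvPolynomial (Fin n ⊕ Fin n) ℂ) (zp Yp : Fin n → Polynomial ℂ)
    {δ : ℝ} (hδ : 0 < δ)
    (h : ∀ τ : ℂ, τ ≠ 0 → ‖τ‖ < δ →
      AA A (fun k => (zp k).eval τ) (fun k => (Yp k).eval τ) = 0) (τ : ℂ) :
    AA A (fun k => (zp k).eval τ) (fun k => (Yp k).eval τ) = 0 := by
  have hev : ∀ τ : ℂ, Polynomial.eval τ (MvPolynomial.aeval (Sum.elim zp Yp) A) =
      AA A (fun k => (zp k).eval τ) (fun k => (Yp k).eval τ) := by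
    intro τ
    rw [eval_aeval_curve]
    unfold AA
    congr 1
    congr 1
    funext i
    cases i <;> rfl
  have hinf : Set.Infinite {τ : ℂ | τ ≠ 0 ∧ ‖τ‖ < δ} := by
    have : Set.Infinite (Set.Ioo (0 : ℝ) δ) := Set.Ioo_infinite hδ
    refine (this.image (f := fun x : ℝ => (x : ℂ)) ?_).mono ?_
    · intro x _ y _ hxy
      exact Complex.ofReal_injective hxy
    · rintro _ ⟨x, hx, rfl⟩
      refine ⟨?_, ?_⟩
      · simpa using hx.1.ne'
      · simpa [abs_of_pos hx.1] using hx.2
  have h0 : MvPolynomial.aeval (Sum.elim zp Yp) A = 0 := by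
    apply Polynomial.eq_zero_of_infinite_isRoot
    refine hinf.mono ?_
    intro τ hτ
    show Polynomial.IsRoot _ _
    rw [Polynomial.IsRoot, hev]
    exact h τ hτ.1 hτ.2
  rw [← hev, h0, Polynomial.eval_zero]

theorem exists_dual {n : ℕ} {Y : Fin n → ℂ} (hY : Y ≠ 0) : ∃ w : Fin n → ℂ, ∑ k, w k * Y k = 1 := by
  obtain ⟨k, hk⟩ := Function.ne_iff.mp hY
  refine ⟨Pi.single k (Y k)⁻¹, ?_⟩
  rw [Finset.sum_eq_single k]
  · simp only [Pi.single_eq_same]
    exact inv_mul_cancel₀ hk
  · intro b _ hb
    simp [Pi.single_eq_of_ne hb]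
  · simp

theorem exists_orth {n : ℕ} (hn : 3 ≤ n) (a b : Fin n → ℂ) :
    ∃ Y : Fin n → ℂ, Y ≠ 0 ∧ ∑ k, a k * Y k = 0 ∧ ∑ k, b k * Y k = 0 := by
  let f : (Fin n → ℂ) →ₗ[ℂ] (Fin 2 → ℂ) := (Matrix.of ![a, b]).mulVecLin
  have hk : LinearMap.ker f ≠ ⊥ := by
    apply LinearMap.ker_ne_bot_of_finrank_lt
    simp
    omega
  obtain ⟨Y, hY, hY0⟩ := (Submodule.ne_bot_iff _).mp hk
  refine ⟨Y, hY0, ?_, ?_⟩
  · have := congrFun (LinearMap.mem_ker.mp hY) 0
    simpa [f, Matrix.mulVec, dotProduct] using this
  · have := congrFun (LinearMap.mem_ker.mp hY) 1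
    simpa [f, Matrix.mulVec, dotProduct] using this

theorem t_NV (hOPEN : S_OPEN) (hNUL : S_NUL) (hSQ : S_SQ) : S_NV := by
  intro n m d p A a b hn hm hmn hd hS hH hZ
  by_contra hcon
  push Not at hcon
  obtain ⟨ε, hε, hO⟩ := hOPEN n m d p a b hd hH hZ
  -- step (i)
  have h1 : ∀ a' b' Y : Fin n → ℂ, ‖a' - a‖ < ε → ‖b' - b‖ < ε → Y ≠ 0 →
      ∑ k, a' k * Y k = 0 → ∑ k, b' k * Y k = 0 → ∀ z : Fin n → ℂ, ∑ k, z k * Y k = 0 →
      AA A z Y = 0 := by
    intro a' b' Y ha' hb' hY haY hbY z hzY
    have hpos : 0 < ε - ‖a' - a‖ := by linarith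
    have hz1 : 0 < ‖z - a'‖ + 1 := by positivity
    have key := curve_zero A (fun k => Polynomial.C (a' k) + Polynomial.X * Polynomial.C (z k - a' k))
      (fun k => Polynomial.C (Y k)) (δ := (ε - ‖a' - a‖) / (‖z - a'‖ + 1)) (by positivity) ?_ 1
    · have e1 : (fun k => Polynomial.eval (1 : ℂ)
          (Polynomial.C (a' k) + Polynomial.X * Polynomial.C (z k - a' k))) = z := by
        funext k; simp
      have e2 : (fun k => Polynomial.eval (1 : ℂ) (Polynomial.C (Y k))) = Y := by
        funext k; simp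
      rw [e1, e2] at key
      exact key
    · intro τ _ hτ
      have e1 : (fun k => Polynomial.eval τ
          (Polynomial.C (a' k) + Polynomial.X * Polynomial.C (z k - a' k))) = a' + τ • (z - a') := by
        funext k; simp
      have e2 : (fun k => Polynomial.eval τ (Polynomial.C (Y k))) = Y := by
        funext k; simp
      rw [e1, e2]
      have hn1 : ‖(a' + τ • (z - a')) - a‖ < ε := by
        have h2 : (a' + τ • (z - a')) - a = (a' - a) + τ • (z - a') := by abel
        rw [h2]
        have h3 : ‖τ • (z - a')‖ < ε - ‖a' - a‖ := by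
          rw [norm_smul]
          rw [lt_div_iff₀ hz1] at hτ
          have : ‖τ‖ * ‖z - a'‖ ≤ ‖τ‖ * (‖z - a'‖ + 1) := by
            apply mul_le_mul_of_nonneg_left _ (norm_nonneg _); linarith
          linarith
        calc ‖(a' - a) + τ • (z - a')‖ ≤ ‖a' - a‖ + ‖τ • (z - a')‖ := norm_add_le _ _
          _ < ε := by linarith
      have hzf := hO (a' + τ • (z - a')) b' hn1 hb'
      have ho : ∑ k, (a' + τ • (z - a')) k * Y k = 0 := by
        have : ∀ k, (a' + τ • (z - a')) k * Y k =
            (1 - τ) * (a' k * Y k) + τ * (z k * Y k) := by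
          intro k
          simp only [Pi.add_apply, Pi.smul_apply, Pi.sub_apply, smul_eq_mul]
          ring
        rw [Finset.sum_congr rfl (fun k _ => this k), Finset.sum_add_distrib, ← Finset.mul_sum,
          ← Finset.mul_sum, haY, hzY]
        ring
      have := hcon _ b' Y hzf hY ho hbY 1 0
      simpa using this
  -- step (ii) and (iii)
  obtain ⟨Y0, hY0, haY0, hbY0⟩ := exists_orth hn a b
  obtain ⟨w, hw⟩ := exists_dual hY0
  have h2 : ∀ z Y : Fin n → ℂ, Y ≠ 0 → ∑ k, z k * Y k = 0 → AA A z Y = 0 := by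
    intro z Y hY hzY
    obtain ⟨w', hw'⟩ := exists_dual hY
    -- the curve Y(τ)
    set Yt : ℂ → Fin n → ℂ := fun τ => Y0 + τ • (Y - Y0) with hYt
    have hcont : Continuous Yt := by fun_prop
    have hw0 : Continuous fun τ => ∑ k, w k * Yt τ k := by
      apply continuous_finsetSum
      intro k _
      exact continuous_const.mul ((continuous_apply k).comp hcont)
    have hY00 : Yt 0 = Y0 := by simp [hYt]
    -- the point a'(τ)
    have hdot : ∀ c : Fin n → ℂ, Continuous fun τ => ∑ k, c k * Yt τ k := by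
      intro c
      apply continuous_finsetSum
      intro k _
      exact continuous_const.mul ((continuous_apply k).comp hcont)
    have hpt : ∀ c : Fin n → ℂ, ∑ k, c k * Y0 k = 0 →
        ∀ᶠ τ in nhds (0 : ℂ), ∃ c' : Fin n → ℂ, ‖c' - c‖ < ε ∧ ∑ k, c' k * Yt τ k = 0 ∧
          Yt τ ≠ 0 := by
      intro c hc
      have hne : ∀ᶠ τ in nhds (0 : ℂ), ∑ k, w k * Yt τ k ≠ 0 := by
        apply (hdot w).continuousAt.eventually_ne
        rw [hY00, hw]
        exact one_ne_zero
      have hq : ContinuousAt (fun τ => (∑ k, c k * Yt τ k) / (∑ k, w k * Yt τ k)) 0 := by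
        apply (hdot c).continuousAt.div (hdot w).continuousAt
        rw [hY00, hw]
        exact one_ne_zero
      have hq2 : ContinuousAt (fun τ => ‖((∑ k, c k * Yt τ k) / (∑ k, w k * Yt τ k)) • w‖) 0 :=
        (hq.smul continuousAt_const).norm
      have hsm : ∀ᶠ τ in nhds (0 : ℂ),
          ‖((∑ k, c k * Yt τ k) / (∑ k, w k * Yt τ k)) • w‖ < ε := by
        apply hq2.eventually_lt continuousAt_const
        rw [hY00, hc]
        simpa using hε
      filter_upwards [hne, hsm] with τ h1 h2
      refine ⟨c - ((∑ k, c k * Yt τ k) / (∑ k, w k * Yt τ k)) • w, ?_, ?_, ?_⟩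
      · have : c - ((∑ k, c k * Yt τ k) / (∑ k, w k * Yt τ k)) • w - c =
            -(((∑ k, c k * Yt τ k) / (∑ k, w k * Yt τ k)) • w) := by abel
        rw [this, norm_neg]
        exact h2
      · have : ∀ k, (c - ((∑ k, c k * Yt τ k) / (∑ k, w k * Yt τ k)) • w) k * Yt τ k =
            c k * Yt τ k - ((∑ k, c k * Yt τ k) / (∑ k, w k * Yt τ k)) * (w k * Yt τ k) := by
          intro k
          simp only [Pi.sub_apply, Pi.smul_apply, smul_eq_mul]
          ring
        rw [Finset.sum_congr rfl (fun k _ => this k), Finset.sum_sub_distrib, ← Finset.mul_sum,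
          div_mul_cancel₀ _ h1, sub_self]
      · intro h0
        apply h1
        simp [h0]
    have hev : ∀ᶠ τ in nhds (0 : ℂ), ∀ x : Fin n → ℂ, ∑ k, x k * Yt τ k = 0 →
        AA A x (Yt τ) = 0 := by
      filter_upwards [hpt a haY0, hpt b hbY0] with τ ha hb
      obtain ⟨a', ha1, ha2, ha3⟩ := ha
      obtain ⟨b', hb1, hb2, _⟩ := hb
      exact h1 a' b' (Yt τ) ha1 hb1 ha3 ha2 hb2
    obtain ⟨δ, hδ, hball⟩ := Metric.eventually_nhds_iff.mp hev
    have key := curve_zero A
      (fun k => (∑ l, Polynomial.C (w' l) *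
          (Polynomial.C (Y0 l) + Polynomial.X * Polynomial.C (Y l - Y0 l))) * Polynomial.C (z k) -
        (∑ l, Polynomial.C (z l) *
          (Polynomial.C (Y0 l) + Polynomial.X * Polynomial.C (Y l - Y0 l))) * Polynomial.C (w' k))
      (fun k => Polynomial.C (Y0 k) + Polynomial.X * Polynomial.C (Y k - Y0 k)) hδ ?_ 1
    · have e2 : (fun k => Polynomial.eval (1 : ℂ)
          (Polynomial.C (Y0 k) + Polynomial.X * Polynomial.C (Y k - Y0 k))) = Y := by
        funext k; simp
      have e1 : (fun k => Polynomial.eval (1 : ℂ) ((∑ l, Polynomial.C (w' l) *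
          (Polynomial.C (Y0 l) + Polynomial.X * Polynomial.C (Y l - Y0 l))) * Polynomial.C (z k) -
        (∑ l, Polynomial.C (z l) *
          (Polynomial.C (Y0 l) + Polynomial.X * Polynomial.C (Y l - Y0 l))) *
            Polynomial.C (w' k))) = z := by
        funext k
        simp only [Polynomial.eval_sub, Polynomial.eval_mul, Polynomial.eval_finsetSum,
          Polynomial.eval_C, Polynomial.eval_add, Polynomial.eval_X, one_mul,
          add_sub_cancel]
        rw [hw', hzY]
        ring
      rw [e1, e2] at key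
      exact key
    · intro τ _ hτ
      have e2 : (fun k => Polynomial.eval τ
          (Polynomial.C (Y0 k) + Polynomial.X * Polynomial.C (Y k - Y0 k))) = Yt τ := by
        funext k; simp [hYt]
      rw [e2]
      apply hball (by simpa using hτ)
      have e1 : ∀ k, Polynomial.eval τ ((∑ l, Polynomial.C (w' l) *
          (Polynomial.C (Y0 l) + Polynomial.X * Polynomial.C (Y l - Y0 l))) * Polynomial.C (z k) -
        (∑ l, Polynomial.C (z l) *
          (Polynomial.C (Y0 l) + Polynomial.X * Polynomial.C (Y l - Y0 l))) *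
            Polynomial.C (w' k)) * Yt τ k = (∑ l, w' l * Yt τ l) * (z k * Yt τ k) -
              (∑ l, z l * Yt τ l) * (w' k * Yt τ k) := by
        intro k
        simp only [Polynomial.eval_sub, Polynomial.eval_mul, Polynomial.eval_finsetSum,
          Polynomial.eval_C, Polynomial.eval_add, Polynomial.eval_X, hYt, Pi.add_apply,
          Pi.smul_apply, Pi.sub_apply, smul_eq_mul]
        ring
      rw [Finset.sum_congr rfl (fun k _ => e1 k), Finset.sum_sub_distrib, ← Finset.mul_sum,
        ← Finset.mul_sum]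
      ring
  have h3 : ∀ z Y : Fin n → ℂ, ∑ k, z k * Y k = 0 → AA A z Y = 0 := by
    intro z Y hzY
    by_cases hY : Y = 0
    · obtain ⟨Y', hY', hzY', _⟩ := exists_orth hn z z
      have key := curve_zero A (fun k => Polynomial.C (z k))
        (fun k => Polynomial.X * Polynomial.C (Y' k)) (δ := 1) one_pos ?_ 0
      · have e1 : (fun k => Polynomial.eval (0 : ℂ) (Polynomial.C (z k))) = z := by
          funext k; simp
        have e2 : (fun k => Polynomial.eval (0 : ℂ) (Polynomial.X * Polynomial.C (Y' k))) = Y := by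
          funext k; simp [hY]
        rw [e1, e2] at key
        exact key
      · intro τ hτ _
        have e1 : (fun k => Polynomial.eval τ (Polynomial.C (z k))) = z := by
          funext k; simp
        have e2 : (fun k => Polynomial.eval τ (Polynomial.X * Polynomial.C (Y' k))) = τ • Y' := by
          funext k
          rw [Polynomial.eval_mul, Polynomial.eval_X, Polynomial.eval_C]
          rfl
        rw [e1, e2]
        apply h2
        · exact smul_ne_zero hτ hY'
        · have : ∀ k, z k * (τ • Y') k = τ * (z k * Y' k) := by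
            intro k
            simp only [Pi.smul_apply, smul_eq_mul]
            ring
          rw [Finset.sum_congr rfl (fun k _ => this k), ← Finset.mul_sum, hzY', mul_zero]
    · exact h2 z Y hY hzY
  obtain ⟨B, hB⟩ := hNUL n A (by omega) h3
  rw [hB] at hS
  have := hSQ n m p B (by omega) hm hS
  nlinarith [sq_nonneg ((n : ℤ) - 2)]

end H15.FG
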